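import Pool.Agent.Work.MP_db9399_dp.Interface

set_option autoImplicit false

namespace Pool.Agent.Work.MP_db9399_dp.helper92

open Finset Classical
open Pool.Agent.Work.MP_db9399_dp
open Pool.Agent.Work.MP_db9399_bp_helper22 (Recol)

universe u

/-- integers which differ by at most 2 and have a small mean -/
theorem int_mean {B : Type*} (s : Finset B) (hs : s.Nonempty) (q : B → ℤ)
    (hd : ∀ b ∈ s, ∀ b' ∈ s, |q b - q b'| ≤ 2) (hm : 5 * |∑ b ∈ s, q b| ≤ (s.card : ℤ)) :
    (∀ b ∈ s, |q b| ≤ 2) ∧ 5 * ∑ b ∈ s, max (q b) 0 ≤ 3 * (s.card : ℤ) := by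
  have hc : (1 : ℤ) ≤ s.card := by exact_mod_cast hs.card_pos
  have h1 := abs_le.mp (le_refl |∑ b ∈ s, q b|)
  refine ⟨?_, ?_⟩
  · intro b hb
    rw [abs_le]
    constructor
    · by_contra hcon
      push Not at hcon
      have h2 : ∑ b' ∈ s, q b' ≤ ∑ b' ∈ s, (-1 : ℤ) := by
        apply Finset.sum_le_sum
        intro b' hb'
        have := abs_le.mp (hd b' hb' b hb)
        linarith
      rw [Finset.sum_const, nsmul_eq_mul] at h2
      linarith
    · by_contra hcon
      push Not at hcon
      have h2 : ∑ b' ∈ s, (1 : ℤ) ≤ ∑ b' ∈ s, q b' := by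
        apply Finset.sum_le_sum
        intro b' hb'
        have := abs_le.mp (hd b' hb' b hb)
        linarith
      rw [Finset.sum_const, nsmul_eq_mul] at h2
      linarith
  · by_cases hA : ∃ b ∈ s, 2 ≤ q b
    · obtain ⟨b, hb, hb2⟩ := hA
      have h2 : ∑ b' ∈ s, max (q b') 0 = ∑ b' ∈ s, q b' := by
        apply Finset.sum_congr rfl
        intro b' hb'
        have := abs_le.mp (hd b' hb' b hb)
        exact max_eq_left (by linarith)
      rw [h2]
      linarith
    · push Not at hA
      by_cases hB : ∃ b ∈ s, q b ≤ -2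
      · obtain ⟨b, hb, hb2⟩ := hB
        have h2 : ∑ b' ∈ s, max (q b') 0 = 0 := by
          apply Finset.sum_eq_zero
          intro b' hb'
          have := abs_le.mp (hd b' hb' b hb)
          exact max_eq_right (by linarith)
        rw [h2]
        linarith
      · push Not at hB
        have h2 : ∑ b ∈ s, 2 * max (q b) 0 ≤ ∑ b ∈ s, (q b + 1) := by
          apply Finset.sum_le_sum
          intro b hb
          have h3 := hA b hb
          have h4 := hB b hb
          rcases le_total (q b) 0 with h5 | h5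
          · rw [max_eq_right h5]; omega
          · rw [max_eq_left h5]; omega
        rw [← Finset.mul_sum, Finset.sum_add_distrib, Finset.sum_const, nsmul_eq_mul] at h2
        linarith

/-- sum of a function of `vec` over a finite set -/
theorem sum_vec {B Q : Type*} [Fintype Q] (s : Finset B) (vec : B → Q) (F : Q → ℝ) :
    ∑ b ∈ s, F (vec b) = ∑ c, ((s.filter (fun b => vec b = c)).card : ℝ) * F c := by
  rw [← Finset.sum_fiberwise s vec (fun b => F (vec b))]
  apply Finset.sum_congr rfl
  intro c _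
  have : ∑ b ∈ s.filter (fun b => vec b = c), F (vec b) =
      ∑ b ∈ s.filter (fun b => vec b = c), F c := by
    apply Finset.sum_congr rfl
    intro b hb
    rw [(mem_filter.mp hb).2]
  rw [this, Finset.sum_const, nsmul_eq_mul]

/-- the dealt subgroups have almost the same means -/
theorem deal_mean {B Q : Type*} [Fintype B] [Fintype Q] (vec : B → Q) (g : ℕ)
    (sub : B → Fin g)
    (hdeal : ∀ a c, |((univ.filter (fun b => sub b = a ∧ vec b = c)).card : ℝ) * g -
        (univ.filter (fun b => vec b = c)).card| ≤ g) (F : Q → ℝ) (K : ℝ)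
    (hF : ∀ c, |F c| ≤ K) (a : Fin g) :
    |(g : ℝ) * ∑ b ∈ univ.filter (fun b => sub b = a), F (vec b) - ∑ b, F (vec b)| ≤
      Fintype.card Q * g * K := by
  rw [sum_vec, sum_vec, Finset.mul_sum, ← Finset.sum_sub_distrib]
  refine le_trans (Finset.abs_sum_le_sum_abs _ _) ?_
  have h1 : ∀ c ∈ (univ : Finset Q), |(g : ℝ) *
      ((((univ.filter (fun b => sub b = a)).filter (fun b => vec b = c)).card : ℝ) * F c) -
      ((univ.filter (fun b => vec b = c)).card : ℝ) * F c| ≤ g * K := by
    intro c _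
    have h2 : (g : ℝ) *
      ((((univ.filter (fun b => sub b = a)).filter (fun b => vec b = c)).card : ℝ) * F c) -
      ((univ.filter (fun b => vec b = c)).card : ℝ) * F c =
      (((univ.filter (fun b => sub b = a ∧ vec b = c)).card : ℝ) * g -
        (univ.filter (fun b => vec b = c)).card) * F c := by
      rw [Finset.filter_filter]
      ring
    rw [h2, abs_mul]
    exact mul_le_mul (hdeal a c) (hF c) (abs_nonneg _) (by positivity)
  refine le_trans (Finset.sum_le_sum h1) ?_
  rw [Finset.sum_const, nsmul_eq_mul, Finset.card_univ]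
  apply le_of_eq
  ring

theorem recol_comp {B γ W : Type*} (sub : B → γ) (P P1 P' : B → W → W)
    (h1 : Recol (fun _ : B => ()) P P1) (h2 : Recol sub P1 P') :
    Recol (fun _ : B => ()) P P' := by
  refine ⟨h2.1, h2.2.1, ?_⟩
  intro _ v w hvw
  rw [← h1.2.2 () v w hvw]
  constructor
  · rintro ⟨b, _, hb⟩
    obtain ⟨b', _, hb'⟩ := (h2.2.2 (sub b) v w hvw).mp ⟨b, rfl, hb⟩
    exact ⟨b', rfl, hb'⟩
  · rintro ⟨b, _, hb⟩
    obtain ⟨b', _, hb'⟩ := (h2.2.2 (sub b) v w hvw).mpr ⟨b, rfl, hb⟩
    exact ⟨b', rfl, hb'⟩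

theorem sq_sum {W J B N : Type*} [Fintype W] [Fintype J] (s : Finset B)
    (P P' : B → W → W) (fc : W → Option J) (nd : J → N) (sg : J → ℤ)
    (h : ∀ j, ∑ b ∈ s, cnt fc (P' b) j = ∑ b ∈ s, cnt fc (P b) j) (x : N) :
    ∑ b ∈ s, sq fc nd sg (P' b) x = ∑ b ∈ s, sq fc nd sg (P b) x := by
  unfold sq
  rw [Finset.sum_comm, Finset.sum_comm (s := s)]
  apply Finset.sum_congr rfl
  intro j _
  rw [← Finset.mul_sum, ← Finset.mul_sum]
  congr 1
  exact_mod_cast h j

theorem rsum' (rsum : Stmt_RSUM.{u}) {W : Type u} {J B γ : Type} [Fintype W] [Fintype J]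
    [Fintype B] [DecidableEq γ] (gp : B → γ)
    (P P' : B → W → W) (fc : W → Option J) (h1 : ∀ b v, P b (P b v) = v)
    (h2 : ∀ b b' v, b ≠ b' → P b v = P b' v → P b v = v) (h3 : Recol gp P P') (a : γ) (j : J) :
    ∑ b ∈ univ.filter (fun b => gp b = a), cnt fc (P' b) j =
        ∑ b ∈ univ.filter (fun b => gp b = a), cnt fc (P b) j := by
  have h := rsum gp P P' fc h1 h2 h3 a j
  have e : (univ.filter (fun b => gp b = a) : Finset B) =
      @Finset.filter B (fun b => gp b = a) (fun _ => Classical.propDecidable _) univ := by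
    ext b
    simp only [Finset.mem_filter]
  rw [e]
  exact h

theorem stmt_EQG (equ : Stmt_EQU.{u}) (deal : Stmt_DEAL) (eqs : Stmt_EQS.{u})
    (rsum : Stmt_RSUM.{u}) : Stmt_EQG.{u} := by
  intro J _
  set k : ℕ := Fintype.card J with hk
  set s1 : ℕ := 10 * 3 ^ k * (4 * k + 1) with hs1
  have hs1pos : 0 < s1 := by positivity
  refine ⟨4 * s1 * (k + 1), by positivity, ?_⟩
  intro W B N _ _ _ P fc nd sg hB hinv hdis hsg hmean
  have hs1B : s1 ≤ Fintype.card B := by nlinarith
  have hBpos : 0 < Fintype.card B := lt_of_lt_of_le hs1pos hs1B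
  have : Nonempty B := Fintype.card_pos_iff.mp hBpos
  have hBR : (0 : ℝ) < (Fintype.card B : ℝ) := by exact_mod_cast hBpos
  -- step 1
  obtain ⟨P1, hP1, hP1e⟩ := equ P fc hinv hdis
  -- base
  have hbase : ∀ j, ∃ m : ℕ, (∃ b, cnt fc (P1 b) j = m) ∧ ∀ b, m ≤ cnt fc (P1 b) j := by
    intro j
    obtain ⟨b0, _, hb0⟩ := Finset.exists_min_image (univ : Finset B) (fun b => cnt fc (P1 b) j)
      ⟨Classical.arbitrary B, mem_univ _⟩
    exact ⟨cnt fc (P1 b0) j, ⟨b0, rfl⟩, fun b => hb0 b (mem_univ _)⟩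
  choose m hm1 hm2 using hbase
  have hm3 : ∀ j b, cnt fc (P1 b) j ≤ m j + 2 := by
    intro j b
    obtain ⟨b0, hb0⟩ := hm1 j
    rw [← hb0]
    exact hP1e b b0 j
  set vec : B → (J → Fin 3) := fun b j => ⟨cnt fc (P1 b) j - m j, by
    have := hm3 j b
    omega⟩ with hvec
  have hvec' : ∀ b j, (cnt fc (P1 b) j : ℤ) = m j + ((vec b j : Fin 3) : ℕ) := by
    intro b j
    have h1 := hm2 j b
    simp only [hvec]
    push_cast [Nat.cast_sub h1]
    ring
  obtain ⟨g, sub, hg, hsize, hdeal⟩ := deal vec s1 hs1pos hs1B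
  have hgR : (0 : ℝ) < g := by exact_mod_cast hg
  -- step 2
  obtain ⟨P', hP', hP'e⟩ := eqs g sub P1 fc nd sg hP1.1 hP1.2.1 hsg
  have hcomp := recol_comp sub P P1 P' hP1 hP'
  -- sums
  have hsum1 : ∀ j, ∑ b, cnt fc (P1 b) j = ∑ b, cnt fc (P b) j := by
    intro j
    have := rsum (fun _ : B => ()) P P1 fc hinv hdis hP1 () j
    simpa using this
  have hsum2 : ∀ a j, ∑ b ∈ univ.filter (fun b => sub b = a), cnt fc (P' b) j =
      ∑ b ∈ univ.filter (fun b => sub b = a), cnt fc (P1 b) j :=
    rsum' rsum sub P1 P' fc hP1.1 hP1.2.1 hP'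
  -- the total signed sums of P1
  have htot : ∀ x, ∑ b, sq fc nd sg (P1 b) x = ∑ b, sq fc nd sg (P b) x := by
    intro x
    exact sq_sum univ P P1 fc nd sg hsum1 x
  -- signed sums in terms of vec
  set M : N → ℤ := fun x => ∑ j ∈ univ.filter (fun j => nd j = x), sg j * m j with hM
  set φ : N → (J → Fin 3) → ℤ := fun x c =>
    ∑ j ∈ univ.filter (fun j => nd j = x), sg j * ((c j : Fin 3) : ℕ) with hφ
  have hsqv : ∀ b x, sq fc nd sg (P1 b) x = M x + φ x (vec b) := by
    intro b x
    simp only [sq, hM, hφ]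
    rw [← Finset.sum_add_distrib]
    apply Finset.sum_congr rfl
    intro j _
    rw [hvec' b j]
    ring
  have hφb : ∀ x c, |φ x c| ≤ 2 * k := by
    intro x c
    simp only [hφ]
    refine le_trans (Finset.abs_sum_le_sum_abs _ _) ?_
    have h1 : ∀ j ∈ univ.filter (fun j => nd j = x), |sg j * (((c j : Fin 3) : ℕ) : ℤ)| ≤ 2 := by
      intro j _
      have h2 : ((c j : Fin 3) : ℕ) ≤ 2 := by
        have := (c j).isLt
        omega
      have h3 : (((c j : Fin 3) : ℕ) : ℤ) ≤ 2 := by exact_mod_cast h2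
      have h4 : (0 : ℤ) ≤ (((c j : Fin 3) : ℕ) : ℤ) := by positivity
      rcases hsg j with h | h | h
      · rw [h]; simp
      · rw [h, one_mul, abs_of_nonneg h4]; exact h3
      · rw [h, neg_one_mul, abs_neg, abs_of_nonneg h4]; exact h3
    refine le_trans (Finset.sum_le_sum h1) ?_
    rw [Finset.sum_const, nsmul_eq_mul]
    have h2 : ((univ.filter (fun j => nd j = x)).card : ℤ) ≤ k := by
      rw [hk]
      exact_mod_cast Finset.card_le_univ _
    linarith
  have hφbR : ∀ x c, |(φ x c : ℝ)| ≤ 2 * k := by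
    intro x c
    have := hφb x c
    exact_mod_cast this
  have hMb : ∀ x, |(M x : ℝ)| ≤ 2 * k + 1 / 10 := by
    intro x
    have h1 : ((∑ b, sq fc nd sg (P1 b) x : ℤ) : ℝ) =
        Fintype.card B * (M x : ℝ) + ∑ b, (φ x (vec b) : ℝ) := by
      rw [Finset.sum_congr rfl (fun b _ => hsqv b x)]
      rw [Finset.sum_add_distrib, Finset.sum_const, nsmul_eq_mul, Finset.card_univ]
      push_cast
      ring
    have h2 : |∑ b, (φ x (vec b) : ℝ)| ≤ Fintype.card B * (2 * k) := by
      refine le_trans (Finset.abs_sum_le_sum_abs _ _) ?_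
      refine le_trans (Finset.sum_le_sum (fun b _ => hφbR x (vec b))) ?_
      rw [Finset.sum_const, nsmul_eq_mul, Finset.card_univ]
    have h3 := hmean x
    rw [← htot x, h1] at h3
    have h4 : |(Fintype.card B : ℝ) * (M x : ℝ)| ≤ Fintype.card B * (2 * k + 1 / 10) := by
      have h5 : (Fintype.card B : ℝ) * (M x : ℝ) =
        (Fintype.card B * (M x : ℝ) + ∑ b, (φ x (vec b) : ℝ)) + -(∑ b, (φ x (vec b) : ℝ)) := by
        ring
      rw [h5]
      refine le_trans (abs_add_le _ _) ?_
      rw [abs_neg]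
      linarith
    rw [abs_mul, abs_of_pos hBR] at h4
    exact le_of_mul_le_mul_left h4 hBR
  have hcardQ : (Fintype.card (J → Fin 3) : ℝ) = 3 ^ k := by
    rw [Fintype.card_fun]
    simp [hk]
  have hnak : ∀ a : Fin g, (10 * 3 ^ k * (4 * k + 1) : ℝ) ≤
      ((univ.filter (fun b => sub b = a)).card : ℝ) := by
    intro a
    have h1 := (hsize a).1
    have h2 : (s1 : ℝ) ≤ ((univ.filter (fun b => sub b = a)).card : ℝ) := by exact_mod_cast h1
    rw [hs1] at h2
    push_cast at h2
    exact h2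
  -- means of the subgroups
  have hsubmean : ∀ a x, 5 * |∑ b ∈ univ.filter (fun b => sub b = a), sq fc nd sg (P' b) x| ≤
      ((univ.filter (fun b => sub b = a)).card : ℤ) := by
    intro a x
    rw [sq_sum (univ.filter (fun b => sub b = a)) P1 P' fc nd sg (hsum2 a) x]
    have h1 := deal_mean vec g sub hdeal (fun c => (M x : ℝ) + φ x c) (4 * k + 1 / 10) (by
      intro c
      refine le_trans (abs_add_le _ _) ?_
      have := hMb x
      have := hφbR x c
      linarith) a
    have h2 := deal_mean vec g sub hdeal (fun _ => (1 : ℝ)) 1 (by intro c; simp) a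
    rw [hcardQ] at h1 h2
    simp only [Finset.sum_const, nsmul_eq_mul, mul_one, Finset.card_univ] at h2
    have h3 : ∀ s : Finset B, ((∑ b ∈ s, sq fc nd sg (P1 b) x : ℤ) : ℝ) =
        ∑ b ∈ s, ((M x : ℝ) + φ x (vec b)) := by
      intro s
      rw [Finset.sum_congr rfl (fun b _ => hsqv b x)]
      push_cast
      rfl
    rw [← h3, ← h3, htot x] at h1
    have h4 := hmean x
    have h5 := hnak a
    set na : ℝ := ((univ.filter (fun b => sub b = a)).card : ℝ) with hna
    set Sa : ℝ := ((∑ b ∈ univ.filter (fun b => sub b = a), sq fc nd sg (P1 b) x : ℤ) : ℝ)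
      with hSa
    set S : ℝ := ((∑ b, sq fc nd sg (P b) x : ℤ) : ℝ) with hS
    have h6 : (g : ℝ) * |Sa| ≤ g * (na / 10 + 3 ^ k * (4 * k + 1 / 5)) := by
      have h7 : (g : ℝ) * |Sa| = |(g * Sa - S) + S| := by
        rw [sub_add_cancel, abs_mul, abs_of_pos hgR]
      rw [h7]
      refine le_trans (abs_add_le _ _) ?_
      have h8 := (abs_le.mp h2).1
      have h9 : (Fintype.card B : ℝ) ≤ g * na + 3 ^ k * g := by linarith
      calc |(g : ℝ) * Sa - S| + |S| ≤ 3 ^ k * g * (4 * k + 1 / 10) + Fintype.card B / 10 :=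
            add_le_add h1 h4
        _ ≤ 3 ^ k * g * (4 * k + 1 / 10) + (g * na + 3 ^ k * g) / 10 := by linarith
        _ = g * (na / 10 + 3 ^ k * (4 * k + 1 / 5)) := by ring
    have h10 : |Sa| ≤ na / 10 + 3 ^ k * (4 * k + 1 / 5) := le_of_mul_le_mul_left h6 hgR
    have h11 : (3 : ℝ) ^ k * (4 * k + 1 / 5) ≤ na / 10 := by
      have h12 : (0 : ℝ) < 3 ^ k := by positivity
      nlinarith
    have h13 : 5 * |Sa| ≤ na := by linarith
    rw [hSa, hna] at h13
    exact_mod_cast h13
  have hint : ∀ a x, _ := fun a x => int_mean (univ.filter (fun b => sub b = a)) (by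
      rw [← Finset.card_pos]
      exact lt_of_lt_of_le hs1pos (hsize a).1) (fun b => sq fc nd sg (P' b) x) (by
      intro b hb b' hb'
      rw [mem_filter] at hb hb'
      exact hP'e b b' (hb.2.trans hb'.2.symm) x) (hsubmean a x)
  have hint' : ∀ a x, _ := fun a x => int_mean (univ.filter (fun b => sub b = a)) (by
      rw [← Finset.card_pos]
      exact lt_of_lt_of_le hs1pos (hsize a).1) (fun b => -sq fc nd sg (P' b) x) (by
      intro b hb b' hb'
      rw [mem_filter] at hb hb'
      have := hP'e b' b (hb'.2.trans hb.2.symm) x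
      rw [show -sq fc nd sg (P' b) x - -sq fc nd sg (P' b') x =
        sq fc nd sg (P' b') x - sq fc nd sg (P' b) x by ring]
      exact this) (by
      rw [Finset.sum_neg_distrib, abs_neg]
      exact hsubmean a x)
  have hcardB : ∑ a : Fin g, ((univ.filter (fun b => sub b = a)).card : ℤ) =
      Fintype.card B := by
    rw [← Finset.card_univ (α := B)]
    have := Finset.card_eq_sum_card_fiberwise (s := (univ : Finset B))
      (t := (univ : Finset (Fin g))) (f := sub) (fun i _ => by simp)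
    rw [this]
    push_cast
    rfl
  have hposZ : ∀ x, 5 * ∑ b, max (sq fc nd sg (P' b) x) 0 ≤ 3 * (Fintype.card B : ℤ) := by
    intro x
    rw [← Finset.sum_fiberwise univ sub (fun b => max (sq fc nd sg (P' b) x) 0), ← hcardB,
      Finset.mul_sum, Finset.mul_sum]
    apply Finset.sum_le_sum
    intro a _
    exact (hint a x).2
  have hnegZ : ∀ x, 5 * ∑ b, max (-sq fc nd sg (P' b) x) 0 ≤ 3 * (Fintype.card B : ℤ) := by
    intro x
    rw [← Finset.sum_fiberwise univ sub (fun b => max (-sq fc nd sg (P' b) x) 0), ← hcardB,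
      Finset.mul_sum, Finset.mul_sum]
    apply Finset.sum_le_sum
    intro a _
    exact (hint' a x).2
  refine ⟨P', hcomp, ?_, ?_, ?_, ?_, ?_, ?_⟩
  · -- load
    intro b
    have hE : ∑ b, ∑ j, cnt fc (P b) j = ∑ b, ∑ j, cnt fc (P1 b) j := by
      rw [Finset.sum_comm, Finset.sum_comm (s := (univ : Finset B))]
      apply Finset.sum_congr rfl
      intro j _
      exact (hsum1 j).symm
    rw [hE]
    have h1 : ∑ j, cnt fc (P' b) j ≤
        ∑ b' ∈ univ.filter (fun b' => sub b' = sub b), ∑ j, cnt fc (P' b') j :=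
      Finset.single_le_sum (f := fun b' => ∑ j, cnt fc (P' b') j) (fun _ _ => Nat.zero_le _)
        (by simp)
    have h2 : ∑ b' ∈ univ.filter (fun b' => sub b' = sub b), ∑ j, cnt fc (P' b') j =
        ∑ b' ∈ univ.filter (fun b' => sub b' = sub b), ∑ j, cnt fc (P1 b') j := by
      rw [Finset.sum_comm, Finset.sum_comm (s := univ.filter (fun b' => sub b' = sub b))]
      apply Finset.sum_congr rfl
      intro j _
      exact hsum2 (sub b) j
    have h3 : ∑ b' ∈ univ.filter (fun b' => sub b' = sub b), ∑ j, cnt fc (P1 b') j ≤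
        ∑ b' ∈ univ.filter (fun b' => sub b' = sub b), (∑ j, m j + 2 * k) := by
      apply Finset.sum_le_sum
      intro b' _
      calc ∑ j, cnt fc (P1 b') j ≤ ∑ j, (m j + 2) := Finset.sum_le_sum (fun j _ => hm3 j b')
        _ = ∑ j, m j + 2 * k := by
          rw [Finset.sum_add_distrib, Finset.sum_const, smul_eq_mul, Finset.card_univ, ← hk]
          ring
    rw [Finset.sum_const, smul_eq_mul] at h3
    have h4 : (univ.filter (fun b' => sub b' = sub b)).card * (∑ j, m j + 2 * k) ≤
        2 * s1 * (∑ j, m j + 2 * k) := Nat.mul_le_mul_right _ (hsize (sub b)).2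
    have h5 : (∑ j, m j) * Fintype.card B ≤ ∑ b, ∑ j, cnt fc (P1 b) j := by
      calc (∑ j, m j) * Fintype.card B = ∑ b : B, ∑ j, m j := by
            rw [Finset.sum_const, smul_eq_mul, Finset.card_univ]
            ring
        _ ≤ ∑ b, ∑ j, cnt fc (P1 b) j :=
            Finset.sum_le_sum (fun b _ => Finset.sum_le_sum (fun j _ => hm2 j b))
    have h6 : ∑ j, cnt fc (P' b) j ≤ 2 * s1 * (∑ j, m j + 2 * k) := by omega
    calc (∑ j, cnt fc (P' b) j) * Fintype.card B ≤
          2 * s1 * (∑ j, m j + 2 * k) * Fintype.card B := Nat.mul_le_mul_right _ h6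
      _ = 2 * s1 * ((∑ j, m j) * Fintype.card B + 2 * k * Fintype.card B) := by ring
      _ ≤ 2 * s1 * (∑ b, ∑ j, cnt fc (P1 b) j + 2 * k * Fintype.card B) :=
          Nat.mul_le_mul_left _ (Nat.add_le_add_right h5 _)
      _ ≤ 4 * s1 * (k + 1) * (∑ b, ∑ j, cnt fc (P1 b) j + Fintype.card B) := by
          set E := ∑ b, ∑ j, cnt fc (P1 b) j
          set c := Fintype.card B
          have h7 : 0 ≤ s1 * E * k := Nat.zero_le _
          nlinarith [Nat.zero_le (s1 * E * k), Nat.zero_le (s1 * E), Nat.zero_le (s1 * c),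
            Nat.zero_le (s1 * c * k)]
  · intro b x
    exact (hint (sub b) x).1 b (by simp)
  · intro x
    have h1 := hposZ x
    have h2 : (5 : ℝ) * ((∑ b, max (sq fc nd sg (P' b) x) 0 : ℤ) : ℝ) ≤
        3 * (Fintype.card B : ℝ) := by exact_mod_cast h1
    linarith
  · intro x
    have h1 := hnegZ x
    have h2 : (5 : ℝ) * ((∑ b, max (-sq fc nd sg (P' b) x) 0 : ℤ) : ℝ) ≤
        3 * (Fintype.card B : ℝ) := by exact_mod_cast h1
    linarith
  · intro x
    have h1 := hnegZ x
    have h2 : ((univ.filter (fun b => ¬ 0 ≤ sq fc nd sg (P' b) x)).card : ℤ) ≤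
        ∑ b, max (-sq fc nd sg (P' b) x) 0 := by
      rw [Finset.card_eq_sum_ones, Finset.sum_filter]
      push_cast
      apply Finset.sum_le_sum
      intro b _
      split_ifs with h3
      · exact le_max_right _ _
      · push Not at h3
        exact le_trans (by omega) (le_max_left _ _)
    have h3 : (univ.filter (fun b => 0 ≤ sq fc nd sg (P' b) x)).card +
        (univ.filter (fun b => ¬ 0 ≤ sq fc nd sg (P' b) x)).card = Fintype.card B := by
      rw [Finset.card_filter_add_card_filter_not, Finset.card_univ]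
    have h4 : (5 : ℝ) * ((univ.filter (fun b => ¬ 0 ≤ sq fc nd sg (P' b) x)).card : ℝ) ≤
        3 * (Fintype.card B : ℝ) := by
      have : 5 * ((univ.filter (fun b => ¬ 0 ≤ sq fc nd sg (P' b) x)).card : ℤ) ≤
        3 * (Fintype.card B : ℤ) := by linarith
      exact_mod_cast this
    have h5 : ((univ.filter (fun b => 0 ≤ sq fc nd sg (P' b) x)).card : ℝ) +
        ((univ.filter (fun b => ¬ 0 ≤ sq fc nd sg (P' b) x)).card : ℝ) = Fintype.card B := by
      exact_mod_cast h3
    linarith
  · intro x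
    have h1 := hposZ x
    have h2 : ((univ.filter (fun b => ¬ sq fc nd sg (P' b) x ≤ 0)).card : ℤ) ≤
        ∑ b, max (sq fc nd sg (P' b) x) 0 := by
      rw [Finset.card_eq_sum_ones, Finset.sum_filter]
      push_cast
      apply Finset.sum_le_sum
      intro b _
      split_ifs with h3
      · exact le_max_right _ _
      · push Not at h3
        exact le_trans (by omega) (le_max_left _ _)
    have h3 : (univ.filter (fun b => sq fc nd sg (P' b) x ≤ 0)).card +
        (univ.filter (fun b => ¬ sq fc nd sg (P' b) x ≤ 0)).card = Fintype.card B := by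
      rw [Finset.card_filter_add_card_filter_not, Finset.card_univ]
    have h4 : (5 : ℝ) * ((univ.filter (fun b => ¬ sq fc nd sg (P' b) x ≤ 0)).card : ℝ) ≤
        3 * (Fintype.card B : ℝ) := by
      have : 5 * ((univ.filter (fun b => ¬ sq fc nd sg (P' b) x ≤ 0)).card : ℤ) ≤
        3 * (Fintype.card B : ℤ) := by linarith
      exact_mod_cast this
    have h5 : ((univ.filter (fun b => sq fc nd sg (P' b) x ≤ 0)).card : ℝ) +
        ((univ.filter (fun b => ¬ sq fc nd sg (P' b) x ≤ 0)).card : ℝ) = Fintype.card B := by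
      exact_mod_cast h3
    linarith

end Pool.Agent.Work.MP_db9399_dp.helper92
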