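import Pool.Agent.Work.MP_db9399_dp.Interface

set_option autoImplicit false

namespace Pool.Agent.Work.MP_db9399_dp.helper92

open Finset Classical
open Pool.Agent.Work.MP_db9399_dp

universe u

theorem rep_mono {ι 𝒯 : Type*} (al : ι → 𝒯 → Prop) (ρ : 𝒯 → ℝ) (e e' : ℝ) (S : Finset ι)
    (h : e' ≤ e) (hr : Rep al ρ e S) : Rep al ρ e' S := by
  intro U hU
  rcases hr U hU with h1 | h1
  · exact Or.inl h1
  · right
    refine le_trans (mul_le_mul_of_nonneg_right (by linarith) (by positivity)) h1

theorem rep_empty {ι 𝒯 : Type*} (al : ι → 𝒯 → Prop) (ρ : 𝒯 → ℝ) (e : ℝ) :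
    Rep al ρ e (∅ : Finset ι) := by
  intro U hU
  left
  intro i hi
  simp at hi

theorem stmt_TYPZ (hall : Stmt_HALLT.{u}) (rk1 : Stmt_RK1) : Stmt_TYPZ.{u} := by
  intro ι I 𝒯 _ _ _ al ρ e R c0 S cl Bd st s he he1 hc0 hρe hρ1 hs hsρ hal hgood hst hrst hRst
    hbad hR
  set t : ℕ := Fintype.card 𝒯 with ht
  have ht1 : (1 : ℝ) ≤ t := by
    have : 0 < Fintype.card 𝒯 := Fintype.card_pos
    exact_mod_cast this
  set cl' : ι → I := fun i => if cl i ∈ Bd then st else cl i with hcl'
  set S' : I → Finset ι := fun A => S.filter (fun i => cl' i = A) with hS'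
  set SB : Finset ι := S.filter (fun i => cl i ∈ Bd) with hSB
  set SS : I → Finset ι := fun A => S.filter (fun i => cl i = A) with hSS
  have hρ0 : ∀ T, 0 ≤ ρ T := fun T => le_trans he.le (hρe T)
  have hRpos : 0 < R := by
    by_contra hcon
    push Not at hcon
    have h1 : e * R ≤ 0 := mul_nonpos_of_nonneg_of_nonpos he.le hcon
    have h2 : 0 < 2 * (t : ℝ) * (t + c0) := by positivity
    linarith
  -- row sums
  have hrow : ∑ A, (S' A).card = S.card := by
    have := Finset.card_eq_sum_card_fiberwise (s := S) (t := (univ : Finset I)) (f := cl')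
      (fun i _ => by simp)
    rw [this]
  obtain ⟨n, hn1, hn2, hn3⟩ := rk1 (fun A => (S' A).card) s (by rw [hrow, hs])
  have hN : (0 : ℝ) < (S.card : ℝ) := by
    have h1 : R ≤ ((SS st).card : ℝ) := hRst
    have h2 : ((SS st).card : ℝ) ≤ S.card := by
      exact_mod_cast Finset.card_le_card (Finset.filter_subset _ _)
    linarith
  -- sum of ρ over U
  have hρU : ∀ U : Finset 𝒯, ∑ T ∈ U, ρ T ≤ 1 := by
    intro U
    rw [← hρ1]
    exact Finset.sum_le_sum_of_subset_of_nonneg (Finset.subset_univ _) (fun T _ _ => hρ0 T)
  have hρT1 : ∀ T, ρ T ≤ 1 := by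
    intro T
    have := hρU {T}
    simpa using this
  have hdev : ∀ A T, |(n A T : ℝ) - ρ T * (S' A).card| ≤ t + c0 := by
    intro A T
    have h1 := hn3 A T
    simp only [hrow] at h1
    have hrA : ((S' A).card : ℝ) ≤ S.card := by
      exact_mod_cast Finset.card_le_card (Finset.filter_subset _ _)
    have h2 : |((S' A).card : ℝ) * s T - ρ T * (S' A).card * S.card| ≤ c0 * S.card := by
      have : ((S' A).card : ℝ) * s T - ρ T * (S' A).card * S.card
        = (S' A).card * ((s T : ℝ) - ρ T * S.card) := by ring
      rw [this, abs_mul, abs_of_nonneg (by positivity : (0:ℝ) ≤ ((S' A).card : ℝ))]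
      calc ((S' A).card : ℝ) * |(s T : ℝ) - ρ T * S.card| ≤ S.card * c0 :=
            mul_le_mul hrA (hsρ T) (abs_nonneg _) (by positivity)
        _ = c0 * S.card := by ring
    have h3 : |(n A T : ℝ) * S.card - ρ T * (S' A).card * S.card| ≤ (t + c0) * S.card := by
      calc |(n A T : ℝ) * S.card - ρ T * (S' A).card * S.card|
          = |((n A T : ℝ) * S.card - ((S' A).card : ℝ) * s T) +
            (((S' A).card : ℝ) * s T - ρ T * (S' A).card * S.card)| := by ring_nf
        _ ≤ |(n A T : ℝ) * S.card - ((S' A).card : ℝ) * s T| +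
            |((S' A).card : ℝ) * s T - ρ T * (S' A).card * S.card| := abs_add_le _ _
        _ ≤ t * S.card + c0 * S.card := add_le_add h1 h2
        _ = (t + c0) * S.card := by ring
    have h4 : (n A T : ℝ) * S.card - ρ T * (S' A).card * S.card
        = ((n A T : ℝ) - ρ T * (S' A).card) * S.card := by ring
    rw [h4, abs_mul, abs_of_pos hN] at h3
    exact le_of_mul_le_mul_right h3 hN
  -- the cells
  have hcellst : (S' st) = SS st ∪ SB := by
    ext i
    simp only [hS', hSS, hSB, hcl', mem_filter, mem_union]
    by_cases h : cl i ∈ Bd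
    · rw [if_pos h]
      constructor
      · rintro ⟨h1, _⟩
        exact Or.inr ⟨h1, h⟩
      · rintro (⟨h1, _⟩ | ⟨h1, _⟩) <;> exact ⟨h1, rfl⟩
    · rw [if_neg h]
      constructor
      · rintro ⟨h1, h2⟩
        exact Or.inl ⟨h1, h2⟩
      · rintro (⟨h1, h2⟩ | ⟨_, h2⟩)
        · exact ⟨h1, h2⟩
        · exact absurd h2 h
  have hdisj : Disjoint (SS st) SB := by
    rw [Finset.disjoint_left]
    intro i hi hi'
    simp only [hSS, hSB, mem_filter] at hi hi'
    rw [hi.2] at hi'
    exact hst hi'.2
  have hcardst : ((S' st).card : ℝ) = (SS st).card + SB.card := by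
    rw [hcellst, Finset.card_union_of_disjoint hdisj]
    push_cast
    ring
  have hcellg : ∀ A, A ∉ Bd → A ≠ st → S' A = SS A := by
    intro A hA hA'
    ext i
    simp only [hS', hSS, hcl', mem_filter]
    by_cases h : cl i ∈ Bd
    · simp only [h, if_true]
      constructor
      · rintro ⟨_, h2⟩
        exact absurd h2.symm hA'
      · rintro ⟨_, h2⟩
        rw [h2] at h
        exact absurd h hA
    · simp [h]
  have hcellb : ∀ A, A ∈ Bd → S' A = ∅ := by
    intro A hA
    rw [Finset.eq_empty_iff_forall_notMem]
    intro i hi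
    simp only [hS', hcl', mem_filter] at hi
    by_cases h : cl i ∈ Bd
    · rw [if_pos h] at hi
      rw [← hi.2] at hA
      exact hst hA
    · rw [if_neg h] at hi
      rw [hi.2] at h
      exact h hA
  -- representation
  have hbad' : 4 * (SB.card : ℝ) ≤ e * (SS st).card := hbad
  have hrep : ∀ A, Rep al ρ (e / 2) (S' A) ∧ (S' A = ∅ ∨ R ≤ ((S' A).card : ℝ)) := by
    intro A
    by_cases hA : A ∈ Bd
    · rw [hcellb A hA]
      exact ⟨rep_empty _ _ _, Or.inl rfl⟩
    by_cases hA' : A = st
    · subst hA'
      refine ⟨?_, ?_⟩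
      · intro U hU
        by_cases hUu : U = univ
        · left
          intro i hi
          obtain ⟨T, hT⟩ := hal i (Finset.mem_of_mem_filter i hi)
          exact ⟨T, by rw [hUu]; exact mem_univ _, hT⟩
        · right
          obtain ⟨T0, hT0⟩ : ∃ T0, T0 ∉ U := by
            by_contra hcon
            push Not at hcon
            exact hUu (Finset.eq_univ_iff_forall.mpr hcon)
          have hU1 : ∑ T ∈ U, ρ T ≤ 1 - e := by
            have h1 := hρU (insert T0 U)
            rw [Finset.sum_insert hT0] at h1
            have := hρe T0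
            linarith
          have hU0 : 0 ≤ ∑ T ∈ U, ρ T := Finset.sum_nonneg (fun T _ => hρ0 T)
          have hsub : ((SS A).filter (fun i => ∃ T ∈ U, al i T)).card ≤
              ((S' A).filter (fun i => ∃ T ∈ U, al i T)).card := by
            apply Finset.card_le_card
            apply Finset.filter_subset_filter
            rw [hcellst]
            exact Finset.subset_union_left
          have hsub' : (((SS A).filter (fun i => ∃ T ∈ U, al i T)).card : ℝ) ≤
              ((S' A).filter (fun i => ∃ T ∈ U, al i T)).card := by exact_mod_cast hsub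
          refine le_trans ?_ hsub'
          have hc0' : (0 : ℝ) ≤ ((SS A).card : ℝ) := by positivity
          have hle : (∑ T ∈ U, ρ T + e / 2) * ((S' A).card : ℝ) ≤
              (∑ T ∈ U, ρ T + e / 2) * ((1 + e / 4) * (SS A).card) := by
            apply mul_le_mul_of_nonneg_left _ (by positivity)
            rw [hcardst]
            linarith
          refine le_trans hle ?_
          rcases hrst U hU with h1 | h1
          · have h2 : (SS A).filter (fun i => ∃ T ∈ U, al i T) = SS A := by
              apply Finset.filter_true_of_mem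
              intro i hi
              exact h1 i hi
            rw [h2]
            nlinarith
          · have h1' : (∑ T ∈ U, ρ T + e) * (SS A).card ≤
              (((SS A).filter (fun i => ∃ T ∈ U, al i T)).card : ℝ) := h1
            refine le_trans ?_ h1'
            have h3 : (∑ T ∈ U, ρ T + e / 2) * (1 + e / 4) ≤ ∑ T ∈ U, ρ T + e := by
              nlinarith
            nlinarith
      · right
        rw [hcardst]
        have h1 : R ≤ ((SS A).card : ℝ) := hRst
        have h2 : (0 : ℝ) ≤ SB.card := by positivity
        linarith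
    · rw [hcellg A hA hA']
      rcases hgood A hA with h1 | h1
      · have h1' : SS A = ∅ := h1
        rw [h1']
        exact ⟨rep_empty _ _ _, Or.inl rfl⟩
      · exact ⟨rep_mono al ρ e (e / 2) _ (by linarith) h1.1, Or.inr h1.2⟩
  have hτ : ∀ A, ∃ τ : ι → 𝒯, (∀ i ∈ S' A, al i (τ i)) ∧
      ∀ T, ((S' A).filter (fun i => τ i = T)).card = n A T := by
    intro A
    refine hall al ρ (e / 2) (S' A) (n A) (hrep A).1 (hn1 A) ?_
    intro U
    rcases (hrep A).2 with h1 | h1
    · have h2 : ∀ T, n A T = 0 := by
        intro T
        have h3 := hn1 A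
        rw [h1, Finset.card_empty] at h3
        exact (Finset.sum_eq_zero_iff.mp h3) T (mem_univ _)
      simp [h2, h1]
    · have h2 : ∑ T ∈ U, (n A T : ℝ) ≤ ∑ T ∈ U, (ρ T * (S' A).card + (t + c0)) := by
        apply Finset.sum_le_sum
        intro T _
        have := (abs_le.mp (hdev A T)).2
        linarith
      refine le_trans h2 ?_
      rw [Finset.sum_add_distrib, ← Finset.sum_mul, add_mul]
      have h3 : ∑ T ∈ U, ((t : ℝ) + c0) ≤ t * (t + c0) := by
        rw [Finset.sum_const, nsmul_eq_mul]
        apply mul_le_mul_of_nonneg_right _ (by positivity)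
        rw [ht]
        exact_mod_cast Finset.card_le_univ U
      have h4 : e / 2 * R ≤ e / 2 * ((S' A).card : ℝ) :=
        mul_le_mul_of_nonneg_left h1 (by linarith)
      have h5 : 2 * (t : ℝ) * (t + c0) ≤ e * R := hR
      linarith
  choose τ hτ1 hτ2 using hτ
  refine ⟨fun i => τ (cl' i) i, ?_, ?_, ?_⟩
  · intro i hi
    exact hτ1 (cl' i) i (by simp [hS', hi])
  · intro T
    rw [← hn2 T]
    have h1 := Finset.card_eq_sum_card_fiberwise (s := S.filter (fun i => τ (cl' i) i = T))
      (t := (univ : Finset I)) (f := cl') (fun i _ => by simp)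
    rw [h1]
    apply Finset.sum_congr rfl
    intro A _
    rw [← hτ2 A T]
    congr 1
    ext i
    simp only [hS', mem_filter]
    constructor
    · rintro ⟨⟨h1, h2⟩, h3⟩
      subst h3
      exact ⟨⟨h1, rfl⟩, h2⟩
    · rintro ⟨⟨h1, h2⟩, h3⟩
      subst h2
      exact ⟨⟨h1, h3⟩, rfl⟩
  · intro A T
    have hSBn : (0 : ℝ) ≤ (SB.card : ℝ) := by positivity
    by_cases hA : A ∈ Bd
    · have h1 : (S.filter (fun i => cl i = A ∧ τ (cl' i) i = T)).card ≤ SB.card := by
        apply Finset.card_le_card
        intro i hi
        simp only [mem_filter] at hi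
        simp only [hSB, mem_filter]
        refine ⟨hi.1, ?_⟩
        rw [hi.2.1]
        exact hA
      have h2 : (S.filter (fun i => cl i = A)).card ≤ SB.card := by
        apply Finset.card_le_card
        intro i hi
        simp only [mem_filter] at hi
        simp only [hSB, mem_filter]
        refine ⟨hi.1, ?_⟩
        rw [hi.2]
        exact hA
      have h1' : ((S.filter (fun i => cl i = A ∧ τ (cl' i) i = T)).card : ℝ) ≤ SB.card := by
        exact_mod_cast h1
      have h2' : ((S.filter (fun i => cl i = A)).card : ℝ) ≤ SB.card := by exact_mod_cast h2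
      have h3 : ρ T * ((S.filter (fun i => cl i = A)).card : ℝ) ≤ SB.card := by
        calc ρ T * ((S.filter (fun i => cl i = A)).card : ℝ) ≤
            1 * ((S.filter (fun i => cl i = A)).card : ℝ) :=
              mul_le_mul_of_nonneg_right (hρT1 T) (by positivity)
          _ ≤ SB.card := by linarith
      have h4 : 0 ≤ ρ T * ((S.filter (fun i => cl i = A)).card : ℝ) :=
        mul_nonneg (hρ0 T) (by positivity)
      have h5 : (0 : ℝ) ≤ ((S.filter (fun i => cl i = A ∧ τ (cl' i) i = T)).card : ℝ) := by
        positivity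
      rw [abs_le]
      constructor <;> linarith
    by_cases hA' : A = st
    · subst hA'
      have h1 : (S.filter (fun i => cl i = A ∧ τ (cl' i) i = T)).card ≤ n A T := by
        rw [← hτ2 A T]
        apply Finset.card_le_card
        intro i hi
        simp only [mem_filter] at hi
        have hc : cl' i = A := by
          simp only [hcl']
          rw [hi.2.1, if_neg hst]
        simp only [hS', mem_filter]
        refine ⟨⟨hi.1, hc⟩, ?_⟩
        rw [← hi.2.2, hc]
      have h2 : n A T ≤ (S.filter (fun i => cl i = A ∧ τ (cl' i) i = T)).card + SB.card := by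
        rw [← hτ2 A T]
        refine le_trans (Finset.card_le_card ?_) (Finset.card_union_le _ _)
        intro i hi
        simp only [hS', mem_filter] at hi
        simp only [mem_union, mem_filter, hSB]
        by_cases h : cl i ∈ Bd
        · exact Or.inr ⟨hi.1.1, h⟩
        · left
          have hc : cl i = A := by
            have h3 := hi.1.2
            simp only [hcl'] at h3
            rw [if_neg h] at h3
            exact h3
          refine ⟨hi.1.1, hc, ?_⟩
          rw [hi.1.2]
          exact hi.2
      have h1' : ((S.filter (fun i => cl i = A ∧ τ (cl' i) i = T)).card : ℝ) ≤ n A T := by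
        exact_mod_cast h1
      have h2' : (n A T : ℝ) ≤
          ((S.filter (fun i => cl i = A ∧ τ (cl' i) i = T)).card : ℝ) + SB.card := by
        exact_mod_cast h2
      have h3 := hdev A T
      rw [hcardst] at h3
      have h4 := abs_le.mp h3
      have h5 : ρ T * (SB.card : ℝ) ≤ 1 * SB.card :=
        mul_le_mul_of_nonneg_right (hρT1 T) (by positivity)
      have h6 : 0 ≤ ρ T * (SB.card : ℝ) := mul_nonneg (hρ0 T) (by positivity)
      have h7 : ρ T * (((SS A).card : ℝ) + SB.card) =
        ρ T * ((S.filter (fun i => cl i = A)).card : ℝ) + ρ T * SB.card := by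
        rw [mul_add]
      rw [h7] at h4
      rw [abs_le]
      constructor <;> linarith [h4.1, h4.2]
    · have h1 : (S.filter (fun i => cl i = A ∧ τ (cl' i) i = T)).card = n A T := by
        rw [← hτ2 A T]
        congr 1
        ext i
        simp only [hS', mem_filter]
        constructor
        · rintro ⟨h1, h2, h3⟩
          have hc : cl' i = A := by
            simp only [hcl']
            rw [h2, if_neg hA]
          refine ⟨⟨h1, hc⟩, ?_⟩
          rw [← h3, hc]
        · rintro ⟨⟨h1, h2⟩, h3⟩
          have hc : cl i = A := by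
            have h4 : i ∈ S' A := by simp [hS', h1, h2]
            rw [hcellg A hA hA'] at h4
            exact (mem_filter.mp h4).2
          refine ⟨h1, hc, ?_⟩
          rw [h2]
          exact h3
      rw [h1]
      have h3 := hdev A T
      rw [hcellg A hA hA'] at h3
      have h4 : |(n A T : ℝ) - ρ T * ((S.filter (fun i => cl i = A)).card : ℝ)| ≤ t + c0 := h3
      linarith

end Pool.Agent.Work.MP_db9399_dp.helper92
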